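import Pool.Agent.Helper91.FS.Goals2

/-! # FS-MDA: levels with two weights (helper90, after Pool/Agent/Helper49/NF/M2A.lean) -/

set_option autoImplicit false

open Finset

namespace Pool.Agent.Helper90.FS

open Pool.Agent.Helper47.SR (Grp mv lev wt Ew W IsInv up dn StarAt HalfStarAt)
open Pool.Agent.Helper91.FS

namespace PkMDA

/-- the sum of the weights of the subsets with one point less -/
def tt {n : ℕ} (w : Finset (Fin n) → ℕ) (x : Finset (Fin n)) : ℕ := ∑ i ∈ x, w (x.erase i)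

theorem sum_one {n l d : ℕ} (w : Finset (Fin n) → ℕ) (hw : Des n l d w) {A : Finset (Fin n)}
    (hA : #A = l + 1) {y : Fin n} (hy : y ∈ A) :
    w A + ∑ x ∈ Aᶜ, w (insert x (A.erase y)) = d := by
  classical
  have h1 : A.erase y ∈ lev n l := by
    rw [Finset.mem_powersetCard_univ, Finset.card_erase_of_mem hy, hA]
    rfl
  rw [← hw.2 _ h1]
  have h2 : (univ : Finset (Fin n)) \ A.erase y = insert y Aᶜ := by
    ext z
    simp only [mem_sdiff, mem_univ, mem_erase, mem_insert, mem_compl, true_and]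
    tauto
  have h3 : y ∉ Aᶜ := fun h => (Finset.mem_compl.1 h) hy
  rw [h2, Finset.sum_insert h3, Finset.insert_erase hy]

theorem sum_tt {n l d : ℕ} (w : Finset (Fin n) → ℕ) (hw : Des n l d w) {A : Finset (Fin n)}
    (hA : #A = l + 1) :
    ∑ x ∈ Aᶜ, tt w (insert x A) + (l + 1) * w A = (n - (l + 1)) * w A + (l + 1) * d := by
  classical
  have h1 : ∀ x ∈ Aᶜ, tt w (insert x A) = w A + ∑ y ∈ A, w (insert x (A.erase y)) := by
    intro x hx
    rw [Finset.mem_compl] at hx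
    unfold tt
    rw [Finset.sum_insert hx, Finset.erase_insert hx]
    congr 1
    refine Finset.sum_congr rfl fun y hy => ?_
    have hxy : x ≠ y := fun h => hx (h ▸ hy)
    congr 1
    rw [Finset.erase_insert_of_ne hxy]
  rw [Finset.sum_congr rfl h1, Finset.sum_add_distrib, Finset.sum_comm, Finset.sum_const,
    Finset.card_compl, hA, Fintype.card_fin, smul_eq_mul]
  have h2 : ∑ y ∈ A, ∑ x ∈ Aᶜ, w (insert x (A.erase y)) + (l + 1) * w A = (l + 1) * d := by
    have h3 : ∑ y ∈ A, (w A + ∑ x ∈ Aᶜ, w (insert x (A.erase y))) = (l + 1) * d := by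
      rw [Finset.sum_congr rfl fun y hy => sum_one w hw hA hy, Finset.sum_const, hA, smul_eq_mul]
    rw [Finset.sum_add_distrib, Finset.sum_const, hA, smul_eq_mul] at h3
    omega
  omega

/-- the flow -/
def fz {n : ℕ} (l : ℕ) (w : Finset (Fin n) → ℕ) (d : ℕ) (y x : Finset (Fin n)) : ℤ :=
  ((l : ℤ) + 1) * ((n : ℤ) - l + d) + ((n : ℤ) - (l + 1)) * (((l : ℤ) + 2) * w y - tt w x)

theorem fz1 {n : ℕ} (l : ℕ) (w : Finset (Fin n) → ℕ) (d : ℕ) {x : Finset (Fin n)}
    (hx : #x = l + 2) :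
    ∑ i ∈ x, fz l w d (x.erase i) x = ((l : ℤ) + 1) * (((l : ℤ) + 2) * ((n : ℤ) - l + d)) := by
  unfold fz
  rw [Finset.sum_add_distrib, ← Finset.mul_sum, ← Finset.mul_sum, Finset.sum_sub_distrib,
    ← Finset.mul_sum]
  simp only [Finset.sum_const, hx, nsmul_eq_mul]
  have : ((tt w x : ℕ) : ℤ) = ∑ i ∈ x, (w (x.erase i) : ℤ) := by
    unfold tt
    push_cast
    rfl
  rw [← this]
  push_cast
  ring

theorem fz2 {n l d : ℕ} (w : Finset (Fin n) → ℕ) (hn : l + 2 ≤ n) (hw : Des n l d w)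
    {A : Finset (Fin n)} (hA : #A = l + 1) :
    ∑ j ∈ Aᶜ, fz l w d A (insert j A) =
      ((l : ℤ) + 1) * (((n : ℤ) - (l + 1)) * ((n : ℤ) - l) * (1 + w A)) := by
  unfold fz
  rw [Finset.sum_add_distrib, ← Finset.mul_sum, ← Finset.mul_sum, Finset.sum_sub_distrib]
  simp only [Finset.sum_const, Finset.card_compl, hA, nsmul_eq_mul, Fintype.card_fin]
  have h1 : ((n - (l + 1) : ℕ) : ℤ) = (n : ℤ) - (l + 1) := by
    rw [Nat.cast_sub (by omega)]
    push_cast
    ring
  have h2 : ∑ j ∈ Aᶜ, (tt w (insert j A) : ℤ) =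
      ((n : ℤ) - (l + 1)) * w A + ((l : ℤ) + 1) * d - ((l : ℤ) + 1) * w A := by
    have := sum_tt w hw hA
    have h3 : ((∑ x ∈ Aᶜ, tt w (insert x A) + (l + 1) * w A : ℕ) : ℤ) =
      (((n - (l + 1)) * w A + (l + 1) * d : ℕ) : ℤ) := by rw [this]
    push_cast [h1] at h3
    linarith
  rw [h1, h2]
  ring

theorem fz3 {n : ℕ} (l : ℕ) (w : Finset (Fin n) → ℕ) (d : ℕ) (hw : ∀ y, w y ≤ 1)
    (hn : l + 2 ≤ n) {x : Finset (Fin n)} (hx : #x = l + 2) {i : Fin n} (hi : i ∈ x) :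
    ((l : ℤ) + 1) * ((d : ℤ) + 1) ≤ fz l w d (x.erase i) x := by
  have h1 : tt w x ≤ w (x.erase i) + (l + 1) := by
    unfold tt
    rw [← Finset.add_sum_erase x (fun i => w (x.erase i)) hi]
    apply Nat.add_le_add_left
    calc ∑ j ∈ x.erase i, w (x.erase j) ≤ ∑ _j ∈ x.erase i, 1 := by
          apply Finset.sum_le_sum
          intro j hj
          exact hw _
      _ = l + 1 := by
          rw [Finset.sum_const, Finset.card_erase_of_mem hi, hx, smul_eq_mul, mul_one]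
          rfl
  have h2 : ((tt w x : ℕ) : ℤ) ≤ w (x.erase i) + (l + 1) := by exact_mod_cast h1
  have h3 : (0 : ℤ) ≤ (n : ℤ) - (l + 1) := by
    have : ((l + 2 : ℕ) : ℤ) ≤ n := by exact_mod_cast hn
    push_cast at this
    linarith
  have h4 : (0 : ℤ) ≤ ((l : ℤ) + 1) * (w (x.erase i) : ℤ) := by positivity
  unfold fz
  have h6 : ((n : ℤ) - (l + 1)) * (-(l + 1)) ≤
      ((n : ℤ) - (l + 1)) * (((l : ℤ) + 2) * w (x.erase i) - tt w x) :=
    mul_le_mul_of_nonneg_left (by linarith) h3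
  have h7 : ((l : ℤ) + 1) * ((n : ℤ) - l + d) + ((n : ℤ) - (l + 1)) * (-(l + 1)) =
      ((l : ℤ) + 1) * ((d : ℤ) + 1) := by ring
  linarith

theorem swap {n m : ℕ} (F : Finset (Finset (Fin n))) (hF : F ⊆ lev n m)
    (f : Finset (Fin n) → Finset (Fin n) → ℤ) :
    ∑ y ∈ F, ∑ j ∈ yᶜ, f y (insert j y) =
      ∑ x ∈ lev n (m + 1), ∑ i ∈ x.filter (fun i => x.erase i ∈ F), f (x.erase i) x := by
  classical
  rw [Finset.sum_sigma', Finset.sum_sigma']
  refine Finset.sum_bij' (fun p _ => ⟨insert p.2 p.1, p.2⟩) (fun p _ => ⟨p.1.erase p.2, p.2⟩)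
    ?_ ?_ ?_ ?_ ?_
  · rintro ⟨y, j⟩ hp
    rw [Finset.mem_sigma] at hp
    obtain ⟨h1, h2⟩ := hp
    have h2' : j ∉ y := Finset.mem_compl.1 h2
    rw [Finset.mem_sigma, Finset.mem_filter]
    refine ⟨?_, Finset.mem_insert_self _ _, ?_⟩
    · show insert j y ∈ lev n (m + 1)
      rw [Finset.mem_powersetCard_univ, Finset.card_insert_of_notMem h2',
        (Finset.mem_powersetCard_univ.1 (hF h1))]
    · show (insert j y).erase j ∈ F
      rw [Finset.erase_insert h2']
      exact h1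
  · rintro ⟨x, i⟩ hp
    rw [Finset.mem_sigma, Finset.mem_filter] at hp
    obtain ⟨h1, h2, h3⟩ := hp
    rw [Finset.mem_sigma]
    exact ⟨h3, Finset.mem_compl.2 (Finset.notMem_erase _ _)⟩
  · rintro ⟨y, j⟩ hp
    rw [Finset.mem_sigma] at hp
    have h2' : j ∉ y := Finset.mem_compl.1 hp.2
    simp only
    rw [Finset.erase_insert h2']
  · rintro ⟨x, i⟩ hp
    rw [Finset.mem_sigma, Finset.mem_filter] at hp
    simp only
    rw [Finset.insert_erase hp.2.1]
  · rintro ⟨y, j⟩ hp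
    rw [Finset.mem_sigma] at hp
    have h2' : j ∉ y := Finset.mem_compl.1 hp.2
    simp only
    rw [Finset.erase_insert h2']

end PkMDA

open PkMDA

theorem goal_MDA : Goal_MDA := by
  classical
  intro n l d w hn hw F hF
  have hw1 := hw.1
  obtain ⟨m, hm⟩ : ∃ m : ℤ, m = (l : ℤ) + 1 := ⟨_, rfl⟩
  have hm0 : 0 < m := by rw [hm]; positivity
  obtain ⟨D, hD⟩ : ∃ D : ℤ, D = ((l : ℤ) + 2) * ((n : ℤ) - l + d) := ⟨_, rfl⟩
  obtain ⟨P, hP⟩ : ∃ P : ℤ, P = ((n : ℤ) - (l + 1)) * ((n : ℤ) - l) := ⟨_, rfl⟩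
  have c1 : ((n - (l + 1) : ℕ) : ℤ) = (n : ℤ) - (l + 1) := by
    rw [Nat.cast_sub (by omega)]
    push_cast
    ring
  have c2 : ((n - l : ℕ) : ℤ) = (n : ℤ) - l := by
    rw [Nat.cast_sub (by omega)]
  obtain ⟨W', hW'⟩ : ∃ W' : ℕ, W' = ∑ A ∈ F, (1 + w A) := ⟨_, rfl⟩
  have eW : (W' : ℤ) = ∑ y ∈ F, (1 + (w y : ℤ)) := by
    rw [hW']
    push_cast
    rfl
  rw [← hW']
  obtain ⟨T, hT⟩ : ∃ T : ℤ, T = ∑ x ∈ lev n (l + 1 + 1),
      ∑ i ∈ x.filter (fun i => x.erase i ∈ F), fz l w d (x.erase i) x := ⟨_, rfl⟩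
  have e1 : T = m * (P * (W' : ℤ)) := by
    rw [hT, ← swap F hF (fz l w d), eW, Finset.mul_sum, Finset.mul_sum]
    refine Finset.sum_congr rfl fun y hy => ?_
    rw [fz2 w hn hw (Finset.mem_powersetCard_univ.1 (hF hy)), hm, hP]
  have hcard : ∀ x ∈ lev n (l + 1 + 1), #x = l + 2 := fun x hx =>
    Finset.mem_powersetCard_univ.1 hx
  have hnn : ∀ x ∈ lev n (l + 1 + 1), ∀ i ∈ x, m * ((d : ℤ) + 1) ≤ fz l w d (x.erase i) x :=
    fun x hx i hi => by rw [hm]; exact fz3 l w d hw1 hn (hcard x hx) hi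
  have hnn0 : ∀ x ∈ lev n (l + 1 + 1), ∀ i ∈ x, 0 ≤ fz l w d (x.erase i) x := by
    intro x hx i hi
    refine le_trans ?_ (hnn x hx i hi)
    positivity
  have hup : up (l + 1) F ⊆ lev n (l + 1 + 1) := Finset.filter_subset _ _
  have hdn : dn (l + 1) F ⊆ up (l + 1) F := by
    intro x hx
    unfold dn at hx
    unfold up
    rw [Finset.mem_filter] at hx ⊢
    refine ⟨hx.1, ?_⟩
    have : x.Nonempty := by
      rw [← Finset.card_pos, hcard x hx.1]
      omega
    obtain ⟨a, ha⟩ := this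
    exact ⟨a, ha, hx.2 a ha⟩
  have e2 : T = ∑ x ∈ up (l + 1) F,
      ∑ i ∈ x.filter (fun i => x.erase i ∈ F), fz l w d (x.erase i) x := by
    rw [hT]
    symm
    apply Finset.sum_subset hup
    intro x hx hx'
    have : x.filter (fun i => x.erase i ∈ F) = ∅ := by
      rw [Finset.filter_eq_empty_iff]
      intro i hi hh
      apply hx'
      unfold up
      rw [Finset.mem_filter]
      exact ⟨hx, i, hi, hh⟩
    rw [this, Finset.sum_empty]
  constructor
  · have h1 : m * (P * (W' : ℤ)) ≤ m * (D * #(up (l + 1) F)) := by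
      rw [← e1, e2]
      calc ∑ x ∈ up (l + 1) F, ∑ i ∈ x.filter (fun i => x.erase i ∈ F), fz l w d (x.erase i) x
          ≤ ∑ x ∈ up (l + 1) F, m * D := by
            apply Finset.sum_le_sum
            intro x hx
            rw [hm, hD, ← fz1 l w d (hcard x (hup hx))]
            apply Finset.sum_le_sum_of_subset_of_nonneg (Finset.filter_subset _ _)
            intro i hi _
            exact hnn0 x (hup hx) i hi
        _ = m * (D * #(up (l + 1) F)) := by rw [Finset.sum_const, nsmul_eq_mul]; ring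
    have h2 : P * (W' : ℤ) ≤ D * #(up (l + 1) F) := le_of_mul_le_mul_left h1 hm0
    have h3 : (((n - (l + 1)) * (n - l) * W' : ℕ) : ℤ) ≤
        (((l + 2) * (n - l + d) * #(up (l + 1) F) : ℕ) : ℤ) := by
      push_cast [c1, c2]
      rw [hP, hD] at h2
      exact h2
    exact_mod_cast h3
  · have h1 : m * (D * #(dn (l + 1) F) +
        ((d : ℤ) + 1) * ((#(up (l + 1) F) : ℤ) - #(dn (l + 1) F))) ≤ m * (P * (W' : ℤ)) := by
      rw [← e1, e2, ← Finset.sum_sdiff hdn]
      have h3 : m * (D * #(dn (l + 1) F)) =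
          ∑ x ∈ dn (l + 1) F,
            ∑ i ∈ x.filter (fun i => x.erase i ∈ F), fz l w d (x.erase i) x := by
        have : ∀ x ∈ dn (l + 1) F,
            ∑ i ∈ x.filter (fun i => x.erase i ∈ F), fz l w d (x.erase i) x = m * D := by
          intro x hx
          have hx' := hx
          unfold dn at hx'
          rw [Finset.mem_filter] at hx'
          rw [Finset.filter_true_of_mem hx'.2, fz1 l w d (hcard x hx'.1), hm, hD]
        rw [Finset.sum_congr rfl this, Finset.sum_const, nsmul_eq_mul]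
        ring
      have h4 : m * (((d : ℤ) + 1) * ((#(up (l + 1) F) : ℤ) - #(dn (l + 1) F))) ≤
          ∑ x ∈ up (l + 1) F \ dn (l + 1) F,
            ∑ i ∈ x.filter (fun i => x.erase i ∈ F), fz l w d (x.erase i) x := by
        have h5 : ∑ _x ∈ up (l + 1) F \ dn (l + 1) F, (m * ((d : ℤ) + 1)) =
            m * (((d : ℤ) + 1) * ((#(up (l + 1) F) : ℤ) - #(dn (l + 1) F))) := by
          rw [Finset.sum_const, nsmul_eq_mul, Finset.card_sdiff_of_subset hdn,
            Nat.cast_sub (Finset.card_le_card hdn)]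
          ring
        rw [← h5]
        apply Finset.sum_le_sum
        intro x hx
        rw [Finset.mem_sdiff] at hx
        have hx' := hx.1
        unfold up at hx'
        rw [Finset.mem_filter] at hx'
        obtain ⟨hx1, a, ha, ha'⟩ := hx'
        have h6 : a ∈ x.filter (fun i => x.erase i ∈ F) := Finset.mem_filter.2 ⟨ha, ha'⟩
        refine (hnn x hx1 a ha).trans ?_
        apply Finset.single_le_sum (f := fun i => fz l w d (x.erase i) x) _ h6
        intro i hi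
        exact hnn0 x hx1 i (Finset.mem_filter.1 hi).1
      rw [mul_add, h3]
      linarith
    have h2 : D * #(dn (l + 1) F) +
        ((d : ℤ) + 1) * ((#(up (l + 1) F) : ℤ) - #(dn (l + 1) F)) ≤ P * (W' : ℤ) :=
      le_of_mul_le_mul_left h1 hm0
    have h3 : (((l + 2) * (n - l + d) * #(dn (l + 1) F) + (d + 1) * #(up (l + 1) F) : ℕ) : ℤ) ≤
        (((n - (l + 1)) * (n - l) * W' + (d + 1) * #(dn (l + 1) F) : ℕ) : ℤ) := by
      push_cast [c1, c2]
      rw [hP, hD] at h2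
      linarith
    exact_mod_cast h3

end Pool.Agent.Helper90.FS
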